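import Mathlib

set_option autoImplicit false

namespace Pool.Agent.Results.MP_4402c4_co.RecurrentCounterexample

open Filter Topology

/-- The block `u_i u_{i+1} ⋯ u_{i+n-1}` of the infinite word `u`. -/
def window {A : Type} (u : ℕ → A) (i n : ℕ) : List A := (List.range n).map fun j => u (i + j)

/-- `w` is a factor of the infinite word `u`. -/
def IsFactor {A : Type} (u : ℕ → A) (w : List A) : Prop := ∃ i, window u i w.length = w

/-- every factor occurs infinitely often -/
def Recurrent {A : Type} (u : ℕ → A) : Prop :=
  ∀ w, IsFactor u w → {i : ℕ | window u i w.length = w}.Infinite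

/-- the language of `u` is closed under reversal -/
def ClosedUnderReversal {A : Type} (u : ℕ → A) : Prop :=
  ∀ w, IsFactor u w → IsFactor u w.reverse

/-- the number of factors of length `n` -/
noncomputable def C {A : Type} (u : ℕ → A) (n : ℕ) : ℕ :=
  {w : List A | IsFactor u w ∧ w.length = n}.ncard

/-- the number of palindromic factors of length `n` -/
noncomputable def P {A : Type} (u : ℕ → A) (n : ℕ) : ℕ :=
  {w : List A | IsFactor u w ∧ w.length = n ∧ w.reverse = w}.ncard

/-- `T_u(n) = C(n+1) - C(n) + 2 - P(n+1) - P(n)` -/
noncomputable def T {A : Type} (u : ℕ → A) (n : ℕ) : ℤ :=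
  (C u (n + 1) : ℤ) - C u n + 2 - P u (n + 1) - P u n

/-- the defect of a finite word: its length plus one minus the number of its palindromic factors
(the empty word included) -/
noncomputable def defectWord {A : Type} (w : List A) : ℤ :=
  (w.length : ℤ) + 1 - {p : List A | p <:+: w ∧ p.reverse = p}.ncard

/-- the defect of an infinite word: supremum of the defects of its beginning blocks -/
noncomputable def defect {A : Type} (u : ℕ → A) : EReal :=
  ⨆ k : ℕ, (((defectWord (window u 0 k) : ℤ) : ℝ) : EReal)

/-! ### General facts -/

theorem window_length {A : Type} (u : ℕ → A) (i n : ℕ) : (window u i n).length = n := by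
  simp [window]

theorem window_zero {A : Type} (u : ℕ → A) (i : ℕ) : window u i 0 = [] := rfl

theorem isFactor_window {A : Type} (u : ℕ → A) (i n : ℕ) : IsFactor u (window u i n) :=
  ⟨i, by rw [window_length]⟩

theorem window_drop {A : Type} (u : ℕ → A) (i n k : ℕ) :
    (window u i n).drop k = window u (i + k) (n - k) := by
  apply List.ext_getElem
  · simp [window]
  · intro j h1 h2
    simp [window, add_assoc]

theorem window_take {A : Type} (u : ℕ → A) (i n k : ℕ) (h : k ≤ n) :
    (window u i n).take k = window u i k := by
  apply List.ext_getElem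
  · simp [window, h]
  · intro j h1 h2
    simp [window]

theorem window_infix {A : Type} (u : ℕ → A) {i n k : ℕ} (h : i + n ≤ k) :
    window u i n <:+: window u 0 k := by
  have h1 : ((window u 0 k).drop i).take n = window u i n := by
    rw [window_drop, window_take _ _ _ _ (by omega), zero_add]
  rw [← h1]
  exact (List.take_prefix _ _).isInfix.trans (List.drop_suffix _ _).isInfix

theorem factor_of_infix_window {A : Type} (u : ℕ → A) {w : List A} {i k : ℕ}
    (h : w <:+: window u i k) : ∃ j, i ≤ j ∧ window u j w.length = w := by
  obtain ⟨s, t, hst⟩ := h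
  refine ⟨i + s.length, by omega, ?_⟩
  have h1 : ((window u i k).drop s.length).take w.length = w := by
    rw [← hst, List.append_assoc, List.drop_left, List.take_left]
  have hlen : s.length + w.length ≤ k := by
    have := congrArg List.length hst
    rw [window_length] at this
    simp at this
    omega
  rw [window_drop, window_take _ _ _ _ (by omega)] at h1
  exact h1

theorem finite_len {A : Type} [Finite A] (u : ℕ → A) (n : ℕ) :
    {w : List A | IsFactor u w ∧ w.length = n}.Finite :=
  (List.finite_length_eq A n).subset fun _ h => h.2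

theorem C_zero {A : Type} (u : ℕ → A) : C u 0 = 1 := by
  have : {w : List A | IsFactor u w ∧ w.length = 0} = {[]} := by
    ext w
    constructor
    · rintro ⟨_, h⟩
      exact List.length_eq_zero_iff.1 h
    · rintro rfl
      exact ⟨⟨0, rfl⟩, rfl⟩
  rw [C, this, Set.ncard_singleton]

theorem P_zero {A : Type} (u : ℕ → A) : P u 0 = 1 := by
  have : {w : List A | IsFactor u w ∧ w.length = 0 ∧ w.reverse = w} = {[]} := by
    ext w
    constructor
    · rintro ⟨_, h, _⟩
      exact List.length_eq_zero_iff.1 h
    · rintro rfl
      exact ⟨⟨0, rfl⟩, rfl, rfl⟩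
  rw [P, this, Set.ncard_singleton]

theorem sum_T {A : Type} (u : ℕ → A) (N : ℕ) :
    ∑ n ∈ Finset.range N, T u n =
      (C u N : ℤ) - 1 + 2 * N - ∑ n ∈ Finset.range N, ((P u (n + 1) : ℤ) + P u n) := by
  induction N with
  | zero => simp [C_zero]
  | succ N ih =>
    rw [Finset.sum_range_succ, Finset.sum_range_succ, ih, T]
    push_cast
    ring

/-- the number of infixes of length `n` of a finite list -/
theorem ncard_infix_le {A : Type} (L : List A) (n : ℕ) :
    {w : List A | w <:+: L ∧ w.length = n}.ncard ≤ L.length + 1 - n := by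
  classical
  have hsub : {w : List A | w <:+: L ∧ w.length = n} ⊆
      ((Finset.range (L.length + 1 - n)).image fun i => (L.drop i).take n : Finset (List A)) := by
    rintro w ⟨⟨s, t, hst⟩, hn⟩
    have hlen : s.length + w.length + t.length = L.length := by
      have := congrArg List.length hst
      simp at this
      omega
    simp only [Finset.coe_image, Set.mem_image, Finset.coe_range, Set.mem_Iio]
    refine ⟨s.length, by omega, ?_⟩
    rw [← hst, List.append_assoc, List.drop_left, ← hn, List.take_left]
  calc {w : List A | w <:+: L ∧ w.length = n}.ncard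
      ≤ (((Finset.range (L.length + 1 - n)).image fun i => (L.drop i).take n :
          Finset (List A)) : Set (List A)).ncard := Set.ncard_le_ncard hsub (Finset.finite_toSet _)
    _ ≤ L.length + 1 - n := by
        rw [Set.ncard_coe_finset]
        exact Finset.card_image_le.trans (by rw [Finset.card_range])

/-! ### The word -/

/-- the finite blocks -/
def U : ℕ → List (Fin 4)
  | 0 => [0]
  | k + 1 => U k ++ List.replicate (2 * (U k).length + 3) 1 ++
      List.replicate (2 * (U k).length + 3) 2 ++
      List.replicate (2 * (U k).length + 3) 3 ++ U k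

/-- the exponents -/
def m (k : ℕ) : ℕ := 2 * (U k).length + 3

theorem U_succ (k : ℕ) : U (k + 1) = U k ++ List.replicate (m k) 1 ++
      List.replicate (m k) 2 ++ List.replicate (m k) 3 ++ U k := rfl

theorem U_length_succ (k : ℕ) : (U (k + 1)).length = 2 * (U k).length + 3 * m k := by
  rw [U_succ]
  simp
  ring

theorem U_length_lt (k : ℕ) : k < (U k).length := by
  induction k with
  | zero => simp [U]
  | succ k ih =>
    rw [U_length_succ]
    have : 3 ≤ m k := by unfold m; omega
    omega

theorem U_prefix_succ (k : ℕ) : U k <+: U (k + 1) := by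
  rw [U_succ, List.append_assoc, List.append_assoc, List.append_assoc]
  exact List.prefix_append _ _

theorem U_prefix {k l : ℕ} (h : k ≤ l) : U k <+: U l := by
  induction l, h using Nat.le_induction with
  | base => exact List.prefix_rfl
  | succ l _ ih => exact ih.trans (U_prefix_succ l)

theorem m_mono {k l : ℕ} (h : k ≤ l) : m k ≤ m l := by
  have := (U_prefix h).length_le
  unfold m
  omega

/-- the infinite word -/
def u (n : ℕ) : Fin 4 := (U n).getD n 0

theorem u_eq {k n : ℕ} (h : n < (U k).length) : u n = (U k).getD n 0 := by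
  have key : ∀ {k l n : ℕ}, k ≤ l → n < (U k).length → (U l).getD n 0 = (U k).getD n 0 := by
    intro k l n hkl hn
    obtain ⟨t, ht⟩ := U_prefix hkl
    rw [← ht]
    simp [List.getD_eq_getElem?_getD, List.getElem?_append_left hn]
  rcases le_total k n with hkn | hkn
  · exact key hkn h
  · exact (key hkn (U_length_lt n)).symm

theorem window_U (k : ℕ) : window u 0 (U k).length = U k := by
  apply List.ext_getElem
  · rw [window_length]
  · intro j h1 h2
    simp only [window, List.getElem_map, List.getElem_range, zero_add]
    rw [u_eq h2]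
    simp [List.getD_eq_getElem?_getD, h2]

theorem exists_infix_U {w : List (Fin 4)} (h : IsFactor u w) : ∃ k, w <:+: U k := by
  obtain ⟨i, hi⟩ := h
  refine ⟨i + w.length, ?_⟩
  have h := window_infix u (i := i) (n := w.length) (k := (U (i + w.length)).length)
    (U_length_lt _).le
  rw [hi, window_U] at h
  exact h

theorem isFactor_of_infix_U {w : List (Fin 4)} {k : ℕ} (h : w <:+: U k) : IsFactor u w := by
  rw [← window_U k] at h
  obtain ⟨j, _, hj⟩ := factor_of_infix_window u h
  exact ⟨j, hj⟩

/-- the last copy of `U k` inside `U (k+1)` -/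
theorem window_U_last (k : ℕ) :
    window u ((U (k + 1)).length - (U k).length) (U k).length = U k := by
  have h1 : (window u 0 (U (k + 1)).length).drop ((U (k + 1)).length - (U k).length) = U k := by
    rw [window_U]
    rw [U_succ, List.length_append]
    rw [Nat.add_sub_cancel]
    exact List.drop_left
  rw [window_drop] at h1
  have h2 : (U (k + 1)).length - ((U (k + 1)).length - (U k).length) = (U k).length := by
    have := (U_prefix_succ k).length_le
    omega
  rw [h2, zero_add] at h1
  exact h1

theorem recurrent_u : Recurrent u := by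
  intro w hw
  obtain ⟨k, hk⟩ := exists_infix_U hw
  rw [Set.infinite_iff_exists_gt]
  intro n
  have hl : w <:+: U (max k n + 1) := hk.trans ((U_prefix (by omega)).isInfix)
  rw [← window_U_last] at hl
  obtain ⟨j, hj1, hj2⟩ := factor_of_infix_window u hl
  refine ⟨j, hj2, lt_of_lt_of_le ?_ hj1⟩
  rw [U_length_succ]
  have := U_length_lt (max k n + 1)
  unfold m
  omega

/-- Every infix of `X` of length at most `N` is an infix of `S`. -/
def Good (N : ℕ) (S X : List (Fin 4)) : Prop := ∀ w, w <:+: X → w.length ≤ N → w <:+: S

theorem Good.glue {N : ℕ} {S A R B : List (Fin 4)} (h1 : Good N S (A ++ R))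
    (h2 : Good N S (R ++ B)) (hR : N ≤ R.length) : Good N S (A ++ R ++ B) := by
  intro w hw hN
  obtain ⟨s, t, hst⟩ := hw
  have hlen := congrArg List.length hst
  simp only [List.length_append] at hlen
  by_cases hc : s.length + w.length ≤ A.length + R.length
  · apply h1 w _ hN
    have h3 : s ++ w <+: A ++ R := by
      apply List.prefix_of_prefix_length_le (l₃ := A ++ R ++ B)
      · exact ⟨t, hst⟩
      · exact List.prefix_append _ _
      · simpa using hc
    exact (List.suffix_append _ _).isInfix.trans h3.isInfix
  · apply h2 w _ hN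
    have h3 : w ++ t <:+ R ++ B := by
      apply List.suffix_of_suffix_length_le (l₃ := A ++ R ++ B)
      · exact ⟨s, by rw [← hst, List.append_assoc]⟩
      · rw [List.append_assoc]; exact List.suffix_append _ _
      · simp only [List.length_append]; omega
    exact (List.prefix_append _ _).isInfix.trans h3.isInfix

theorem Good.mono_sub {N : ℕ} {S X Y : List (Fin 4)} (h : Good N S X) (hY : Y <:+: X) :
    Good N S Y := fun w hw hN => h w (hw.trans hY) hN

theorem good_self (N : ℕ) (S : List (Fin 4)) : Good N S S := fun _ hw _ => hw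

theorem good_replicate {N : ℕ} {S : List (Fin 4)} {c : Fin 4} (h : List.replicate N c <:+: S)
    (n : ℕ) : Good N S (List.replicate n c) := by
  intro w hw hN
  have hw' : w = List.replicate w.length c :=
    List.eq_replicate_iff.2 ⟨rfl, fun b hb => List.eq_of_mem_replicate (hw.subset hb)⟩
  refine List.IsInfix.trans ?_ h
  rw [hw']
  refine ⟨[], List.replicate (N - w.length) c, ?_⟩
  rw [List.nil_append, List.replicate_append_replicate]
  congr 1
  omega

/-- the test word -/
def S (k N : ℕ) : List (Fin 4) :=
  U k ++ List.replicate N 1 ++ List.replicate N 2 ++ List.replicate N 3 ++ U k ++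
    List.replicate N 1

theorem S_length (k N : ℕ) : (S k N).length = 2 * (U k).length + 4 * N := by
  simp [S]
  ring

theorem good_12 {k N : ℕ} {n : ℕ} (hn : N ≤ n) :
    Good N (S k N) (List.replicate n 1 ++ List.replicate n 2) := by
  have hb1 : List.replicate N (1 : Fin 4) ++ List.replicate N 2 <:+: S k N :=
    ⟨U k, List.replicate N 3 ++ U k ++ List.replicate N 1, by simp [S]⟩
  have h1 : List.replicate N (1 : Fin 4) <:+: S k N :=
    (List.prefix_append _ _).isInfix.trans hb1
  have h2 : List.replicate N (2 : Fin 4) <:+: S k N :=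
    (List.suffix_append _ _).isInfix.trans hb1
  have e1 : List.replicate n (1 : Fin 4) = List.replicate (n - N) 1 ++ List.replicate N 1 := by
    rw [List.replicate_append_replicate]; congr 1; omega
  have e2 : List.replicate n (2 : Fin 4) = List.replicate N 2 ++ List.replicate (n - N) 2 := by
    rw [List.replicate_append_replicate]; congr 1; omega
  have g1 : Good N (S k N) (List.replicate (n - N) 1 ++ List.replicate N 1 ++
      List.replicate N 2) := by
    refine Good.glue ?_ ?_ (by simp)
    · rw [← e1]; exact good_replicate h1 n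
    · exact (good_self _ _).mono_sub hb1
  rw [e1, e2, ← List.append_assoc]
  refine Good.glue g1 ?_ (by simp)
  rw [← e2]; exact good_replicate h2 n

theorem good_23 {k N : ℕ} {n : ℕ} (hn : N ≤ n) :
    Good N (S k N) (List.replicate n 2 ++ List.replicate n 3) := by
  have hb1 : List.replicate N (2 : Fin 4) ++ List.replicate N 3 <:+: S k N :=
    ⟨U k ++ List.replicate N 1, U k ++ List.replicate N 1, by simp [S]⟩
  have h1 : List.replicate N (2 : Fin 4) <:+: S k N :=
    (List.prefix_append _ _).isInfix.trans hb1
  have h2 : List.replicate N (3 : Fin 4) <:+: S k N :=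
    (List.suffix_append _ _).isInfix.trans hb1
  have e1 : List.replicate n (2 : Fin 4) = List.replicate (n - N) 2 ++ List.replicate N 2 := by
    rw [List.replicate_append_replicate]; congr 1; omega
  have e2 : List.replicate n (3 : Fin 4) = List.replicate N 3 ++ List.replicate (n - N) 3 := by
    rw [List.replicate_append_replicate]; congr 1; omega
  have g1 : Good N (S k N) (List.replicate (n - N) 2 ++ List.replicate N 2 ++
      List.replicate N 3) := by
    refine Good.glue ?_ ?_ (by simp)
    · rw [← e1]; exact good_replicate h1 n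
    · exact (good_self _ _).mono_sub hb1
  rw [e1, e2, ← List.append_assoc]
  refine Good.glue g1 ?_ (by simp)
  rw [← e2]; exact good_replicate h2 n

theorem good_U {k N : ℕ} (hN : N ≤ m k) {l : ℕ} (hl : k ≤ l) :
    Good N (S k N) (List.replicate N 3 ++ U l ++ List.replicate N 1) := by
  induction l, hl using Nat.le_induction with
  | base =>
    refine (good_self _ _).mono_sub ⟨U k ++ List.replicate N 1 ++ List.replicate N 2, [], ?_⟩
    simp [S]
  | succ l hl ih =>
    have hNl : N ≤ m l := hN.trans (m_mono hl)
    have hr1 : List.replicate N (1 : Fin 4) <:+: S k N := ⟨U k, List.replicate N 2 ++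
      List.replicate N 3 ++ U k ++ List.replicate N 1, by simp [S]⟩
    have hr3 : List.replicate N (3 : Fin 4) <:+: S k N := ⟨U k ++ List.replicate N 1 ++
      List.replicate N 2, U k ++ List.replicate N 1, by simp [S]⟩
    have e1 : List.replicate (m l) (1 : Fin 4) =
        List.replicate N 1 ++ List.replicate (m l - N) 1 := by
      rw [List.replicate_append_replicate]; congr 1; omega
    have e3 : List.replicate (m l) (3 : Fin 4) =
        List.replicate (m l - N) 3 ++ List.replicate N 3 := by
      rw [List.replicate_append_replicate]; congr 1; omega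
    -- left piece
    have gL : Good N (S k N) (List.replicate N 3 ++ U l ++ List.replicate (m l) 1) := by
      rw [e1, ← List.append_assoc]
      refine Good.glue ih ?_ (by simp)
      rw [← e1]; exact good_replicate hr1 _
    -- right piece
    have gR : Good N (S k N) (List.replicate (m l) 3 ++ (U l ++ List.replicate N 1)) := by
      rw [e3]
      refine Good.glue ?_ ?_ (by simp)
      · rw [← e3]; exact good_replicate hr3 _
      · rw [← List.append_assoc]; exact ih
    have g1 := Good.glue gL (good_12 hNl) (by simpa using hNl)
    have g2 := Good.glue (A := List.replicate N 3 ++ U l ++ List.replicate (m l) 1) g1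
      (good_23 hNl) (by simpa using hNl)
    have g3 := Good.glue (A := List.replicate N 3 ++ U l ++ List.replicate (m l) 1 ++
      List.replicate (m l) 2) g2 gR (by simpa using hNl)
    convert g3 using 1
    rw [U_succ]
    simp [List.append_assoc]

theorem factor_infix_S {k N : ℕ} (hN : N ≤ m k) {w : List (Fin 4)} (hw : IsFactor u w)
    (hlen : w.length ≤ N) : w <:+: S k N := by
  obtain ⟨l, hl⟩ := exists_infix_U hw
  have h1 : w <:+: U (max k l) := hl.trans (U_prefix (le_max_right _ _)).isInfix
  refine good_U hN (le_max_left k l) w ?_ hlen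
  exact h1.trans ⟨List.replicate N 3, List.replicate N 1, rfl⟩

theorem C_le {k N : ℕ} (hN : N ≤ m k) : C u N ≤ 2 * (U k).length + 3 * N + 1 := by
  have h1 : C u N ≤ {w : List (Fin 4) | w <:+: S k N ∧ w.length = N}.ncard := by
    refine Set.ncard_le_ncard ?_ ((List.finite_length_eq (Fin 4) N).subset fun _ h => h.2)
    rintro w ⟨hw, hl⟩
    exact ⟨factor_infix_S hN hw hl.le, hl⟩
  have h2 := ncard_infix_le (S k N) N
  rw [S_length] at h2
  omega

theorem replicate_factor (c : Fin 4) (hc : c ≠ 0) (n : ℕ) : IsFactor u (List.replicate n c) := by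
  have hn : n ≤ m n := by
    have := U_length_lt n
    unfold m
    omega
  have h2 : List.replicate n c <:+: List.replicate (m n) c :=
    ⟨[], List.replicate (m n - n) c, by
      rw [List.nil_append, List.replicate_append_replicate]; congr 1; omega⟩
  have h3 : List.replicate (m n) c <:+: U (n + 1) := by
    rw [U_succ]
    have hall : ∀ c : Fin 4, c ≠ 0 → c = 1 ∨ c = 2 ∨ c = 3 := by decide
    have hc' : c = 1 ∨ c = 2 ∨ c = 3 := hall c hc
    rcases hc' with rfl | rfl | rfl
    · exact ⟨U n, List.replicate (m n) 2 ++ List.replicate (m n) 3 ++ U n, by simp⟩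
    · exact ⟨U n ++ List.replicate (m n) 1, List.replicate (m n) 3 ++ U n, by simp⟩
    · exact ⟨U n ++ List.replicate (m n) 1 ++ List.replicate (m n) 2, U n, by simp⟩
  exact isFactor_of_infix_U (h2.trans h3)

theorem three_le_P (n : ℕ) : 3 ≤ P u (n + 1) := by
  classical
  have hsub : ((({1, 2, 3} : Finset (Fin 4)).image fun c => List.replicate (n + 1) c :
      Finset (List (Fin 4))) : Set (List (Fin 4))) ⊆
      {w : List (Fin 4) | IsFactor u w ∧ w.length = n + 1 ∧ w.reverse = w} := by
    intro w hw
    simp only [Finset.coe_image, Set.mem_image, Finset.mem_coe] at hw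
    obtain ⟨c, hc, rfl⟩ := hw
    have hall : ∀ c : Fin 4, c ∈ ({1, 2, 3} : Finset (Fin 4)) → c ≠ 0 := by decide
    have hc0 : c ≠ 0 := hall c hc
    exact ⟨replicate_factor c hc0 _, List.length_replicate, List.reverse_replicate⟩
  have hinj : Function.Injective fun c : Fin 4 => List.replicate (n + 1) c := by
    intro c d h
    simp only [List.replicate_succ, List.cons.injEq] at h
    exact h.1
  have hcard : (({1, 2, 3} : Finset (Fin 4)).image fun c => List.replicate (n + 1) c).card = 3 := by
    rw [Finset.card_image_of_injective _ hinj]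
    decide
  have h := Set.ncard_le_ncard hsub ((finite_len u (n + 1)).subset fun w h => ⟨h.1, h.2.1⟩)
  rw [Set.ncard_coe_finset, hcard] at h
  exact h

theorem sum_P_ge (N : ℕ) :
    (6 * N + 4 : ℤ) ≤ ∑ n ∈ Finset.range (N + 1), ((P u (n + 1) : ℤ) + P u n) := by
  induction N with
  | zero =>
    have h1 : (3 : ℤ) ≤ P u (0 + 1) := by exact_mod_cast three_le_P 0
    rw [Finset.sum_range_one, P_zero]
    push_cast
    linarith
  | succ N ih =>
    rw [Finset.sum_range_succ]
    have h1 : (3 : ℤ) ≤ P u (N + 1 + 1) := by exact_mod_cast three_le_P (N + 1)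
    have h2 : (3 : ℤ) ≤ P u (N + 1) := by exact_mod_cast three_le_P N
    push_cast
    linarith

theorem partial_sum_neg (k : ℕ) :
    ∑ n ∈ Finset.range (2 * (U k).length + 3), T u n ≤ -1 := by
  have h1 : C u (2 * (U k).length + 3) ≤ 2 * (U k).length + 3 * (2 * (U k).length + 3) + 1 :=
    C_le le_rfl
  have h2 := sum_P_ge (2 * (U k).length + 2)
  have h3 : (C u (2 * (U k).length + 3) : ℤ) ≤
      2 * (U k).length + 3 * (2 * (U k).length + 3) + 1 := by exact_mod_cast h1
  rw [sum_T]
  push_cast at h2 ⊢
  have e : (2 * (U k).length + 2 + 1) = 2 * (U k).length + 3 := by ring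
  rw [e] at h2
  linarith

theorem defect_nonneg {A : Type} (v : ℕ → A) : 0 ≤ defect v := by
  have h : (((defectWord (window v 0 0) : ℤ) : ℝ) : EReal) = 0 := by
    have : {p : List A | p <:+: [] ∧ p.reverse = p} = {[]} := by
      ext p
      constructor
      · rintro ⟨h, _⟩
        exact List.eq_nil_of_infix_nil h
      · rintro rfl
        exact ⟨List.infix_rfl, rfl⟩
    rw [window_zero, defectWord, this, Set.ncard_singleton]
    simp
  rw [← h]
  exact le_iSup (fun k : ℕ => (((defectWord (window v 0 k) : ℤ) : ℝ) : EReal)) 0

theorem not_closed : ¬ ClosedUnderReversal u := by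
  intro h
  have h1 : IsFactor u [1, 2] := by
    apply isFactor_of_infix_U (k := 1)
    decide
  have h2 := h _ h1
  have h3 : [(2 : Fin 4), 1] <:+: S 0 5 := factor_infix_S (k := 0) (N := 5) (by decide) h2
    (by simp)
  revert h3
  decide

/-- There is a recurrent infinite word over a four-letter alphabet with infinitely many
palindromic factors, whose language is not closed under reversal, such that the partial sums of
`∑ T_u(n)` are infinitely often at most `-1`; in particular they do not converge to `2 D(u)`
in the extended line. -/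
theorem result : ∃ u : ℕ → Fin 4, Recurrent u ∧
    {w : List (Fin 4) | IsFactor u w ∧ w.reverse = w}.Infinite ∧ ¬ ClosedUnderReversal u ∧
    {N : ℕ | ∑ n ∈ Finset.range N, T u n ≤ -1}.Infinite ∧ 0 ≤ defect u ∧
    ¬ Tendsto (fun N : ℕ => (((∑ n ∈ Finset.range N, T u n : ℤ) : ℝ) : EReal)) atTop
      (𝓝 (2 * defect u)) := by
  have hinf : {N : ℕ | ∑ n ∈ Finset.range N, T u n ≤ -1}.Infinite := by
    rw [Set.infinite_iff_exists_gt]
    intro n
    refine ⟨2 * (U n).length + 3, partial_sum_neg n, ?_⟩
    have := U_length_lt n
    omega
  refine ⟨u, recurrent_u, ?_, not_closed, hinf, defect_nonneg u, ?_⟩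
  · refine Set.infinite_of_injective_forall_mem (f := fun n : ℕ => List.replicate n (1 : Fin 4))
      ?_ ?_
    · intro i j h
      have := congrArg List.length h
      simpa using this
    · intro n
      exact ⟨replicate_factor 1 (by decide) n, List.reverse_replicate⟩
  · intro ht
    have hge : (0 : EReal) ≤ 2 * defect u := by
      have h2 : (0 : EReal) ≤ 2 := by norm_num
      exact mul_nonneg h2 (defect_nonneg u)
    have hlt : (((-1 : ℤ) : ℝ) : EReal) < 2 * defect u := by
      refine lt_of_lt_of_le ?_ hge
      have : (((-1 : ℤ) : ℝ) : EReal) < ((0 : ℝ) : EReal) := by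
        rw [EReal.coe_lt_coe_iff]
        norm_num
      simp
    have hev := ht.eventually (lt_mem_nhds hlt)
    rw [Filter.eventually_atTop] at hev
    obtain ⟨N₀, hN₀⟩ := hev
    obtain ⟨N, hN, hN'⟩ := (Set.infinite_iff_exists_gt.1 hinf) N₀
    have h1 := hN₀ N hN'.le
    have h2 : (∑ n ∈ Finset.range N, T u n : ℤ) ≤ -1 := hN
    have h3 : (((∑ n ∈ Finset.range N, T u n : ℤ) : ℝ) : EReal) ≤ (((-1 : ℤ) : ℝ) : EReal) := by
      rw [EReal.coe_le_coe_iff]
      exact_mod_cast h2
    exact absurd (lt_of_lt_of_le h1 h3) (lt_irrefl _)

end Pool.Agent.Results.MP_4402c4_co.RecurrentCounterexample
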